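import Pool.Agent.Lib.MP_49b2f4_co.D.Ls
import Pool.Agent.Lib.MP_49b2f4_co.D.T0

namespace Pool.Agent.Lib.MP_49b2f4_co.D

set_option maxRecDepth 100000

theorem a0 : allT tg0 (chkA L4 L6 f6) = true := by decide +kernel
theorem a1 : allT tg1 (chkA L4 L6 f6) = true := by decide +kernel
theorem a2 : allT tg2 (chkA L4 L6 f6) = true := by decide +kernel
theorem a3 : allT tg3 (chkA L4 L6 f6) = true := by decide +kernel
theorem a4 : allT tg4 (chkA L4 L6 f6) = true := by decide +kernel
theorem a5 : allT tg5 (chkA L4 L6 f6) = true := by decide +kernel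
theorem a6 : allT tg6 (chkA L4 L6 f6) = true := by decide +kernel
theorem a7 : allT tg7 (chkA L4 L6 f6) = true := by decide +kernel
theorem a8 : allT tg8 (chkA L4 L6 f6) = true := by decide +kernel
theorem a9 : allT tg9 (chkA L4 L6 f6) = true := by decide +kernel
theorem a10 : allT tg10 (chkA L4 L6 f6) = true := by decide +kernel
theorem a11 : allT tg11 (chkA L4 L6 f6) = true := by decide +kernel
theorem a12 : allT tg12 (chkA L4 L6 f6) = true := by decide +kernel

end Pool.Agent.Lib.MP_49b2f4_co.D
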