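import Pool.Agent.Lib.MP_49b2f4_co.D.Ls
import Pool.Agent.Lib.MP_49b2f4_co.D.T1

namespace Pool.Agent.Lib.MP_49b2f4_co.D

set_option maxRecDepth 100000

theorem a13 : allT tg13 (chkA L4 L6 f6) = true := by decide +kernel
theorem a14 : allT tg14 (chkA L4 L6 f6) = true := by decide +kernel
theorem a15 : allT tg15 (chkA L4 L6 f6) = true := by decide +kernel
theorem a16 : allT tg16 (chkA L4 L6 f6) = true := by decide +kernel
theorem a17 : allT tg17 (chkA L4 L6 f6) = true := by decide +kernel
theorem a18 : allT tg18 (chkA L4 L6 f6) = true := by decide +kernel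
theorem a19 : allT tg19 (chkA L4 L6 f6) = true := by decide +kernel
theorem a20 : allT tg20 (chkA L4 L6 f6) = true := by decide +kernel
theorem a21 : allT tg21 (chkA L4 L6 f6) = true := by decide +kernel
theorem a22 : allT tg22 (chkA L4 L6 f6) = true := by decide +kernel
theorem a23 : allT tg23 (chkA L4 L6 f6) = true := by decide +kernel
theorem a24 : allT tg24 (chkA L4 L6 f6) = true := by decide +kernel
theorem a25 : allT tg25 (chkA L4 L6 f6) = true := by decide +kernel

end Pool.Agent.Lib.MP_49b2f4_co.D
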