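import Pool.Agent.Lib.MP_49b2f4_co.D.Ls
import Pool.Agent.Lib.MP_49b2f4_co.D.T2

namespace Pool.Agent.Lib.MP_49b2f4_co.D

set_option maxRecDepth 100000

theorem a26 : allT tg26 (chkA L4 L6 f6) = true := by decide +kernel
theorem a27 : allT tg27 (chkA L4 L6 f6) = true := by decide +kernel
theorem a28 : allT tg28 (chkA L4 L6 f6) = true := by decide +kernel
theorem a29 : allT tg29 (chkA L4 L6 f6) = true := by decide +kernel
theorem a30 : allT tg30 (chkA L4 L6 f6) = true := by decide +kernel
theorem a31 : allT tg31 (chkA L4 L6 f6) = true := by decide +kernel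
theorem a32 : allT tg32 (chkA L4 L6 f6) = true := by decide +kernel
theorem a33 : allT tg33 (chkA L4 L6 f6) = true := by decide +kernel
theorem a34 : allT tg34 (chkA L4 L6 f6) = true := by decide +kernel
theorem a35 : allT tg35 (chkA L4 L6 f6) = true := by decide +kernel
theorem a36 : allT tg36 (chkA L4 L6 f6) = true := by decide +kernel
theorem a37 : allT tg37 (chkA L4 L6 f6) = true := by decide +kernel
theorem a38 : allT tg38 (chkA L4 L6 f6) = true := by decide +kernel

end Pool.Agent.Lib.MP_49b2f4_co.D
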