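import Pool.Agent.Lib.MP_49b2f4_co.D.Ls
import Pool.Agent.Lib.MP_49b2f4_co.D.T3

namespace Pool.Agent.Lib.MP_49b2f4_co.D

set_option maxRecDepth 100000

theorem a39 : allT tg39 (chkA L4 L6 f6) = true := by decide +kernel
theorem a40 : allT tg40 (chkA L4 L6 f6) = true := by decide +kernel
theorem a41 : allT tg41 (chkA L4 L6 f6) = true := by decide +kernel
theorem a42 : allT tg42 (chkA L4 L6 f6) = true := by decide +kernel
theorem a43 : allT tg43 (chkA L4 L6 f6) = true := by decide +kernel
theorem a44 : allT tg44 (chkA L4 L6 f6) = true := by decide +kernel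
theorem a45 : allT tg45 (chkA L4 L6 f6) = true := by decide +kernel
theorem a46 : allT tg46 (chkA L4 L6 f6) = true := by decide +kernel
theorem a47 : allT tg47 (chkA L4 L6 f6) = true := by decide +kernel
theorem a48 : allT tg48 (chkA L4 L6 f6) = true := by decide +kernel
theorem a49 : allT tg49 (chkA L4 L6 f6) = true := by decide +kernel
theorem a50 : allT tg50 (chkA L4 L6 f6) = true := by decide +kernel
theorem a51 : allT tg51 (chkA L4 L6 f6) = true := by decide +kernel

end Pool.Agent.Lib.MP_49b2f4_co.D
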