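import Pool.Agent.Lib.MP_49b2f4_co.D.B1

namespace Pool.Agent.Lib.MP_49b2f4_co.D

set_option maxRecDepth 100000

theorem p1 : psdchk blk1 = true := by decide +kernel
theorem w1_0 : allT blk1.rows (rowsF blk1 0 132) = true := by decide +kernel
theorem w1_1 : allT blk1.rows (rowsF blk1 132 132) = true := by decide +kernel
theorem w1_2 : allT blk1.rows (rowsF blk1 264 132) = true := by decide +kernel
theorem w1_3 : allT blk1.rows (rowsF blk1 396 132) = true := by decide +kernel
theorem ok1 : blk1.OK := blk_ok p1 (cover4 rfl w1_0 w1_1 w1_2 w1_3)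

end Pool.Agent.Lib.MP_49b2f4_co.D
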