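import Pool.Agent.Lib.MP_49b2f4_co.D.B2

namespace Pool.Agent.Lib.MP_49b2f4_co.D

set_option maxRecDepth 100000

theorem p2 : psdchk blk2 = true := by decide +kernel
theorem w2_0 : allT blk2.rows (rowsF blk2 0 132) = true := by decide +kernel
theorem w2_1 : allT blk2.rows (rowsF blk2 132 132) = true := by decide +kernel
theorem w2_2 : allT blk2.rows (rowsF blk2 264 132) = true := by decide +kernel
theorem w2_3 : allT blk2.rows (rowsF blk2 396 132) = true := by decide +kernel
theorem ok2 : blk2.OK := blk_ok p2 (cover4 rfl w2_0 w2_1 w2_2 w2_3)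

end Pool.Agent.Lib.MP_49b2f4_co.D
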