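import Pool.Agent.Lib.MP_49b2f4_co.D.B3

namespace Pool.Agent.Lib.MP_49b2f4_co.D

set_option maxRecDepth 100000

theorem p3 : psdchk blk3 = true := by decide +kernel
theorem w3_0 : allT blk3.rows (rowsF blk3 0 132) = true := by decide +kernel
theorem w3_1 : allT blk3.rows (rowsF blk3 132 132) = true := by decide +kernel
theorem w3_2 : allT blk3.rows (rowsF blk3 264 132) = true := by decide +kernel
theorem w3_3 : allT blk3.rows (rowsF blk3 396 132) = true := by decide +kernel
theorem ok3 : blk3.OK := blk_ok p3 (cover4 rfl w3_0 w3_1 w3_2 w3_3)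

end Pool.Agent.Lib.MP_49b2f4_co.D
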