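import Pool.Agent.Lib.MP_49b2f4_co.D.B4

namespace Pool.Agent.Lib.MP_49b2f4_co.D

set_option maxRecDepth 100000

theorem p4 : psdchk blk4 = true := by decide +kernel
theorem w4_0 : allT blk4.rows (rowsF blk4 0 132) = true := by decide +kernel
theorem w4_1 : allT blk4.rows (rowsF blk4 132 132) = true := by decide +kernel
theorem w4_2 : allT blk4.rows (rowsF blk4 264 132) = true := by decide +kernel
theorem w4_3 : allT blk4.rows (rowsF blk4 396 132) = true := by decide +kernel
theorem ok4 : blk4.OK := blk_ok p4 (cover4 rfl w4_0 w4_1 w4_2 w4_3)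

end Pool.Agent.Lib.MP_49b2f4_co.D
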