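import Pool.Agent.Lib.MP_49b2f4_co.D.B5

namespace Pool.Agent.Lib.MP_49b2f4_co.D

set_option maxRecDepth 100000

theorem p5 : psdchk blk5 = true := by decide +kernel
theorem ok5 : blk5.OK := blk_ok p5 (cover1 rfl (by decide +kernel))
theorem p6 : psdchk blk6 = true := by decide +kernel
theorem ok6 : blk6.OK := blk_ok p6 (cover1 rfl (by decide +kernel))

end Pool.Agent.Lib.MP_49b2f4_co.D
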