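import Pool.Agent.Lib.MP_49b2f4_co.Up
import Pool.Agent.Lib.MP_49b2f4_co.D.G
import Pool.Agent.Lib.MP_49b2f4_co.D.T0
import Pool.Agent.Lib.MP_49b2f4_co.D.T1
import Pool.Agent.Lib.MP_49b2f4_co.D.T2
import Pool.Agent.Lib.MP_49b2f4_co.D.T3

namespace Pool.Agent.Lib.MP_49b2f4_co.D

set_option maxRecDepth 100000

noncomputable def tc : Tr := (.nd (nat_lit 2053389706070016) (.nd (nat_lit 1770819344926720) (.nd (nat_lit 1059707155189248) (.nd (nat_lit 847775205949440) (.nd (nat_lit 214422014920704) tg0 (.nd (nat_lit 424982887530496) tg1 tg2)) (.nd (nat_lit 918693706205184) tg3 (.nd (nat_lit 989062450905088) tg4 tg5))) (.nd (nat_lit 1418388396114432) (.nd (nat_lit 1134695999864832) tg6 (.nd (nat_lit 1349122343323776) tg7 tg8)) (.nd (nat_lit 1698234397622272) (.nd (nat_lit 1630596347070976) tg9 tg10) (.nd (nat_lit 1699896528797952) tg11 tg12)))) (.nd (nat_lit 1981371627094144) (.nd (nat_lit 1912383681989632) (.nd (nat_lit 1841733587976576) tg13 (.nd (nat_lit 1909890453342208) tg14 tg15)) (.nd (nat_lit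 1979432449475584) tg16 (.nd (nat_lit 1979984386458624) tg17 tg18))) (.nd (nat_lit 1982473353428992) (.nd (nat_lit 1981648665249024) tg19 (.nd (nat_lit 1982471205830784) tg20 tg21)) (.nd (nat_lit 2052290135787520) (.nd (nat_lit 1982473361899648) tg22 tg23) (.nd (nat_lit 2052842106079360) tg24 tg25))))) (.nd (nat_lit 2123763853050496) (.nd (nat_lit 2122385076061696) (.nd (nat_lit 2120446997430272) (.nd (nat_lit 2053390788283008) tg26 (.nd (nat_lit 2053394034608256) tg27 tg28)) (.nd (nat_lit 2121824675431936) tg29 (.nd (nat_lit 2122109120168320) tg30 tg31))) (.nd (nat_lit 2123210846503168) (.nd (nat_lit 2122938082657536) tg32 (.nd (nat_lit 2123208694710400) tg33 tg34)) (.nd (nat_lit 2123759524512256) (.nd (nat_lit 2123485720216576) tg35 tg36) (.nd (nat_lit 2123762779291648) tg37 tg38)))) (.nd (nat_lit 2193858792918016) (.nd (nat_lit 2192193419611648) (.nd (nat_lit 2123764931117440) tg39 (.nd (nat_lit 2190815741609984) tg40 tg41)) (.nd (nat_lit 2193577438873600) tg42 (.nd (nat_lit 2193581767395328)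 tg43 tg44))) (.nd (nat_lit 2194133679540224) (.nd (nat_lit 2194128268691968) tg45 (.nd (nat_lit 2194133671086080) tg46 tg47)) (.nd (nat_lit 2194408548994048) (.nd (nat_lit 2194405306863360) tg48 tg49) (.nd (nat_lit 2194409631190528) tg50 tg51))))))
theorem b0 : allT t7_0 (chkB tc) = true := by decide +kernel
theorem b1 : allT t7_1 (chkB tc) = true := by decide +kernel
theorem b2 : allT t7_2 (chkB tc) = true := by decide +kernel
theorem b3 : allT t7_3 (chkB tc) = true := by decide +kernel
theorem hB : allT t7 (chkB tc) = true := (allT_nd (allT_nd b0 b1) (allT_nd b2 b3))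

end Pool.Agent.Lib.MP_49b2f4_co.D
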