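import Pool.Agent.Lib.MP_49b2f4_co.Up
import Pool.Agent.Lib.MP_49b2f4_co.D.G

namespace Pool.Agent.Lib.MP_49b2f4_co.D

set_option maxRecDepth 100000

theorem k0 : allT t0 (comp 0 t1) = true := by decide +kernel
theorem k1 : allT t1 (comp 1 t2) = true := by decide +kernel
theorem k2 : allT t2 (comp 2 t3) = true := by decide +kernel
theorem k3 : allT t3 (comp 3 t4) = true := by decide +kernel
theorem k4 : allT t4 (comp 4 t5) = true := by decide +kernel
theorem k5 : allT t5 (comp 5 t6) = true := by decide +kernel
theorem k6_0 : allT t6_0 (comp 6 t7) = true := by decide +kernel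
theorem k6_1 : allT t6_1 (comp 6 t7) = true := by decide +kernel
theorem k6_2 : allT t6_2 (comp 6 t7) = true := by decide +kernel
theorem k6_3 : allT t6_3 (comp 6 t7) = true := by decide +kernel
theorem k6 : allT t6 (comp 6 t7) = true := (allT_nd (allT_nd k6_0 k6_1) (allT_nd k6_2 k6_3))

end Pool.Agent.Lib.MP_49b2f4_co.D
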