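import Pool.Agent.Lib.MP_49b2f4_co.D.C0
import Pool.Agent.Lib.MP_49b2f4_co.D.C1
import Pool.Agent.Lib.MP_49b2f4_co.D.C2
import Pool.Agent.Lib.MP_49b2f4_co.D.C3
import Pool.Agent.Lib.MP_49b2f4_co.D.C4
import Pool.Agent.Lib.MP_49b2f4_co.D.C5
import Pool.Agent.Lib.MP_49b2f4_co.D.A0
import Pool.Agent.Lib.MP_49b2f4_co.D.A1
import Pool.Agent.Lib.MP_49b2f4_co.D.A2
import Pool.Agent.Lib.MP_49b2f4_co.D.A3
import Pool.Agent.Lib.MP_49b2f4_co.D.E
import Pool.Agent.Lib.MP_49b2f4_co.D.F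
import Pool.Agent.Lib.MP_49b2f4_co.D.H

namespace Pool.Agent.Lib.MP_49b2f4_co.D

set_option maxRecDepth 100000

theorem hA : allT tc (chkA L4 L6 f6) = true := (allT_nd (allT_nd (allT_nd (allT_nd (allT_nd a0 (allT_nd a1 a2)) (allT_nd a3 (allT_nd a4 a5))) (allT_nd (allT_nd a6 (allT_nd a7 a8)) (allT_nd (allT_nd a9 a10) (allT_nd a11 a12)))) (allT_nd (allT_nd (allT_nd a13 (allT_nd a14 a15)) (allT_nd a16 (allT_nd a17 a18))) (allT_nd (allT_nd a19 (allT_nd a20 a21)) (allT_nd (allT_nd a22 a23) (allT_nd a24 a25))))) (allT_nd (allT_nd (allT_nd (allT_nd a26 (allT_nd a27 a28)) (allT_nd a29 (allT_nd a30 a31))) (allT_nd (allT_nd a32 (allT_nd a33 a34)) (allT_nd (allT_nd a35 a36) (allT_nd a37 a38)))) (allT_nd (allT_nd (allT_nd a39 (allT_nd a40 a41)) (allT_nd a42 (allT_nd a43 a44))) (allT_nd (allT_nd a45 (allT_nd a46 a47)) (allT_nd (allT_nd a48 a49) (allT_nd a50 a51))))))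
theorem h4 : LOK L4 528 := by
  intro B hB
  simp only [L4, List.mem_cons, List.not_mem_nil, or_false] at hB
  rcases hB with rfl | rfl | rfl | rfl | rfl
  exacts [⟨ok0, rfl⟩, ⟨ok1, rfl⟩, ⟨ok2, rfl⟩, ⟨ok3, rfl⟩, ⟨ok4, rfl⟩]

theorem h6 : LOK L6 65 := by
  intro B hB
  simp only [L6, List.mem_cons, List.not_mem_nil, or_false] at hB
  rcases hB with rfl | rfl
  exacts [⟨ok5, rfl⟩, ⟨ok6, rfl⟩]

theorem cert : ∀ g, Good g → 0 ≤ Sym (c8 L4 L6) 8 g ∧ 0 ≤ Sym (c7 L4 L6) 7 g :=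
  cov_zero (cov_step goal_inv (by norm_num) k0 (cov_step goal_inv (by norm_num) k1
    (cov_step goal_inv (by norm_num) k2 (cov_step goal_inv (by norm_num) k3
    (cov_step goal_inv (by norm_num) k4 (cov_step goal_inv (by norm_num) k5
    (cov_step goal_inv (by norm_num) k6 (main_chk h4 h6 hA hB hD))))))))

end Pool.Agent.Lib.MP_49b2f4_co.D
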