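import Pool.Agent.Lib.MP_49b2f4_co.D.B0

namespace Pool.Agent.Lib.MP_49b2f4_co.D

set_option maxRecDepth 100000

theorem p0 : psdchk blk0 = true := by decide +kernel
theorem w0_0 : allT blk0.rows (rowsF blk0 0 132) = true := by decide +kernel
theorem w0_1 : allT blk0.rows (rowsF blk0 132 132) = true := by decide +kernel
theorem w0_2 : allT blk0.rows (rowsF blk0 264 132) = true := by decide +kernel
theorem w0_3 : allT blk0.rows (rowsF blk0 396 132) = true := by decide +kernel
theorem ok0 : blk0.OK := blk_ok p0 (cover4 rfl w0_0 w0_1 w0_2 w0_3)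

end Pool.Agent.Lib.MP_49b2f4_co.D
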