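import Pool.Agent.Lib.MP_49b2f4_co.Up
import Pool.Agent.Lib.MP_49b2f4_co.D.G

namespace Pool.Agent.Lib.MP_49b2f4_co.D

set_option maxRecDepth 100000

theorem hD : allT t7 (chkD t7 t6) = true := by decide +kernel

end Pool.Agent.Lib.MP_49b2f4_co.D
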