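import Pool.Agent.Lib.MP_49b2f4_co.StageA
import Pool.Agent.Lib.MP_49b2f4_co.D.B0
import Pool.Agent.Lib.MP_49b2f4_co.D.B1
import Pool.Agent.Lib.MP_49b2f4_co.D.B2
import Pool.Agent.Lib.MP_49b2f4_co.D.B3
import Pool.Agent.Lib.MP_49b2f4_co.D.B4
import Pool.Agent.Lib.MP_49b2f4_co.D.B5

namespace Pool.Agent.Lib.MP_49b2f4_co.D

set_option maxRecDepth 100000

noncomputable def L4 : List Blk := [blk0, blk1, blk2, blk3, blk4]
noncomputable def L6 : List Blk := [blk5, blk6]
noncomputable def f6 (H : Nat) : Bool := cond (Nat.beq H (nat_lit 4432676782080)) true (Nat.beq H (nat_lit 29842038333472))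

end Pool.Agent.Lib.MP_49b2f4_co.D
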